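import Pool.Agent.Helper15.AF.Goals2

/-!
# Project AF (MP_34c247_lc), packet TGM: the total error
-/

namespace Pool.Agent.Helper37.AF

open Pool.Agent.Helper51.ZP Pool.Agent.Helper78.DT Pool.Agent.Helper78.JT Pool.Agent.Helper15.AF
open scoped Classical

theorem tgm (hA : TomStmt) (hB : TbmStmt) : TgmStmt := by
  intro n W K t e P q r ρ s D m kk kV T J l R d k M η κ δ ε μ H f a hW hP hK hKP hq hm hδ hε hμ hJ
    hkV hkk hnT hPT hin hD hM0 hM hR hη hη1 hκ hpow
  have hne : Nonempty (Fin (t + 2) → Fin P) := ⟨fun _ => ⟨0, hP.pos⟩⟩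
  -- the inner probabilities
  set p1 : (Fin (t + 2) → Fin P) → ℝ := fun A' =>
    pr (fun z : (Fin (Qk kk) × Fin (Qk kk)) × Fin (Zl R d (l + 1)) ×
        (Fin K → Fin (q * (q * P))) =>
      H (fun i => ev ((f i).filter (bal K t (pt P K t e (ext A')))) fun v =>
          cnm (Yf kk z.1.1 z.1.2) m P e q (fun x => ch R d z.2.1 x (l + 1))
            (pt P K t e (ext A')) (ext z.2.2) v)
        (fun i => dot (a i) fun v =>
          cnm (Yf kk z.1.1 z.1.2) m P e q (fun x => ch R d z.2.1 x (l + 1))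
            (pt P K t e (ext A')) (ext z.2.2) v) = true) with hp1
  set p2 : (Fin (t + 2) → Fin P) → ℝ := fun A' =>
    pr (fun b : Fin n → Bool =>
      H (fun i => ev ((f i).filter (bal K t (pt P K t e (ext A')))) b)
        (fun i => dot (a i) b) = true) with hp2
  set E2 : ℝ := K * errY P m ρ D kV T (Qk kk) + K * (4 * ((l + 1) * (errI P r s t ρ D kV J * ε))) +
      K * errP P m e D J (R l) r s t l η κ δ μ with hE2
  have h12 : ∀ A', |p1 A' - p2 A'| ≤ E2 := by
    intro A'
    exact hA n K t e P q r ρ s D m kk kV T J l R d k M η κ δ ε μ H hP hK hq hm hδ hε hμ hJ hkV hkk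
      hnT hPT hin hD hM0 hM hR hη hη1 hκ hpow (pt P K t e (ext A')) (fun v => Nat.mod_lt _ hK)
      (fun i => (f i).filter (bal K t (pt P K t e (ext A')))) a
      (by
        intro i g hg j hj
        have h2 := (List.mem_filter.1 hg).2
        simp only [bal, decide_eq_true_eq] at h2
        exact h2 j hj)
  have e1 : pr (fun z : (Fin (t + 2) → Fin P) × (Fin (Qk kk) × Fin (Qk kk)) ×
        Fin (Zl R d (l + 1)) × (Fin K → Fin (q * (q * P))) =>
      H (fun i => ev ((f i).filter (bal K t (pt P K t e (ext z.1)))) fun v =>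
          cnm (Yf kk z.2.1.1 z.2.1.2) m P e q (fun x => ch R d z.2.2.1 x (l + 1))
            (pt P K t e (ext z.1)) (ext z.2.2.2) v)
        (fun i => dot (a i) fun v =>
          cnm (Yf kk z.2.1.1 z.2.1.2) m P e q (fun x => ch R d z.2.2.1 x (l + 1))
            (pt P K t e (ext z.1)) (ext z.2.2.2) v) = true) = av p1 := by
    unfold pr
    rw [av_prod]
    rfl
  have e2 : pr (fun z : (Fin (t + 2) → Fin P) × (Fin n → Bool) =>
      H (fun i => ev ((f i).filter (bal K t (pt P K t e (ext z.1)))) z.2)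
        (fun i => dot (a i) z.2) = true) = av p2 := by
    unfold pr
    rw [av_prod]
    rfl
  have h5 : |av p1 - av p2| ≤ E2 := by
    rw [← av_sub]
    refine (abs_av_le _).trans ((av_mono h12).trans ?_)
    rw [av_const]
  have h6 := hB n P K t e W r hP hK hKP hm (fun v x => H v (fun i => dot (a i) x)) f hW
  rw [e2] at h6
  rw [e1]
  rw [abs_le] at h5 h6 ⊢
  constructor <;> linarith [h5.1, h5.2, h6.1, h6.2]

end Pool.Agent.Helper37.AF
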